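import Mathlib
import Pool.Agent.N824.CJ.Bridge

/-!
# Symplectic forms from coarse maps

`X` is a closed manifold of dimension `n` and `ω₀` is a smooth closed two-form on `X`. The theorem
characterizes when the class of `ω₀` contains a symplectic form (respectively a symplectic form
taming a given continuous almost complex structure `J`) by the existence of maps
`f r : X → (ℝ²)^N`, for arbitrarily small scales `r`, without any regularity besides local
integrability, which on the balls of radius comparable with `r` are *in the mean* close to affine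
maps, with an error `δ` which is small compared with the nondegeneracy (respectively the positivity
on the complex lines) of `ω₀ + L^*(∑ dx ∧ dy)`, `L` the linear part. The maps `f r` are unrelated
for different `r`, and their linear parts may be unbounded as `r` tends to `0`.

The definitions are in `Pool/Agent/N824/CJ/Pub.lean` (`HasCoarse`, `CoarseAt`, `Robust`,
`AffineInMean`, `GoodParam`, `InClass`, `Nondeg`) and in the starting file
`Pool/Agent/Y501/SY/Pub.lean` (forms, almost complex structures, taming).
-/

set_option autoImplicit false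

open scoped Manifold ContDiff

namespace Pool.Agent.Results.MP_9986fc_gt.CoarseSymplectic

open Pool.Agent.Y501.SYP
open Pool.Agent.N824.CJP

theorem result (n : ℕ) : ∃ C₀ : ℕ → ℝ, ∀ C : ℕ → ℝ, (∀ N, C₀ N ≤ C N) →
    ∀ (X : Type) [TopologicalSpace X] [ChartedSpace (ES n) X] [IsManifold 𝓘(ℝ, ES n) ∞ X]
      [CompactSpace X] [T2Space X] (ω₀ : Form (ES n) X 2), IsSmooth ω₀ → IsClosedForm ω₀ →
      ((∃ σ : Form (ES n) X 2, InClass ω₀ σ ∧ Nondeg σ) ↔
        HasCoarse n (vol n) C ω₀ (allPairs (ES n) X)) ∧
      ∀ J : End (ES n) X, IsAlmostComplex J →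
        ((∃ σ : Form (ES n) X 2, InClass ω₀ σ ∧ ∀ x, TamesAt σ J x) ↔
          HasCoarse n (vol n) C ω₀ (complexPairs J)) :=
  ⟨fun N => 4 * N * Pool.Agent.N824.CJ.CJ n ^ 2, fun C hC X _ _ _ _ _ ω₀ hs hc =>
    mainP n C hC X ω₀ hs hc⟩

end Pool.Agent.Results.MP_9986fc_gt.CoarseSymplectic
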