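import Mathlib
import Pool.Agent.N763.SY.Bridge

/-!
# Taming in the mean

`X` is a closed manifold with a continuous almost complex structure `J`, `pr : Z → X` is a normal
covering with an arbitrary group `G`, and `m` is a `G`-invariant finitely additive mean on a
`G`-set `P`. For an equivariant family `w p` (`p` in `P`) of closed two-forms on `Z`, locally
uniformly bounded with all derivatives, it suffices that the mean of the forms `w p` tames `J`
outside a set which is small in the fibres of a smooth map `f : X → Y`, where `df` kills all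
vectors on which the mean is not positive: then `J` is tamed by a symplectic form, cohomologous to
the mean. Conversely a symplectic form taming `J` gives such a family.
-/

set_option autoImplicit false

open Set
open scoped Manifold ContDiff

namespace Pool.Agent.Results.MP_9986fc_gt.MeanTaming

open Pool.Agent.Y501.SYP Pool.Agent.N763.SYM

theorem result (d : ℕ) (Z X : Type) [TopologicalSpace Z] [ChartedSpace (ES d) Z]
    [IsManifold 𝓘(ℝ, ES d) ∞ Z] [TopologicalSpace X] [ChartedSpace (ES d) X]
    [IsManifold 𝓘(ℝ, ES d) ∞ X] [CompactSpace X] [T2Space X]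
    (G P : Type) [Group G] [MulAction G Z] [MulAction G P]
    (m : (P → ℝ) → ℝ) (hm : InvariantMean G m)
    (pr : Z → X) (hpr : NormalCovering (ES d) G pr)
    (J : End (ES d) X) (hJ : IsAlmostComplex J) :
    (∀ w : P → Form (ES d) Z 2, ClosedFamily G w →
      ∀ (k : ℕ) (Y : Type) [TopologicalSpace Y] [ChartedSpace (ES k) Y]
        [IsManifold 𝓘(ℝ, ES k) ∞ Y] [T2Space Y] (f : X → Y),
        Kills (W := ES k) m pr J w f → SmallOnFibres m pr J w f →
        ∃ τ : Form (ES d) X 2, IsTamingSymplectic τ J ∧ InMeanClass m pr w τ) ∧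
    ((∃ τ : Form (ES d) X 2, IsTamingSymplectic τ J) ↔
      ∃ w : P → Form (ES d) Z 2, ClosedFamily G w ∧ SmallOnFibres m pr J w (fun _ => ())) := by
  have h1 : ∀ w : P → Form (ES d) Z 2, ClosedFamily G w →
      ∀ (k : ℕ) (Y : Type) [TopologicalSpace Y] [ChartedSpace (ES k) Y]
        [IsManifold 𝓘(ℝ, ES k) ∞ Y] [T2Space Y] (f : X → Y),
        Kills (W := ES k) m pr J w f → SmallOnFibres m pr J w f →
        ∃ τ : Form (ES d) X 2, IsTamingSymplectic τ J ∧ InMeanClass m pr w τ := by
    intro w hw k Y _ _ _ _ f hf hsmall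
    obtain ⟨τ, α, ρ, h1, h2, h3, h4, h5⟩ := mean_taming hm hpr J hJ hw hf.smooth hf.kills hsmall
    exact ⟨τ, h1, α, ρ, h2, h3, h4, h5⟩
  refine ⟨h1, ?_, ?_⟩
  · rintro ⟨τ, hτ⟩
    have := mean_nonempty hm
    obtain ⟨h2, h3⟩ := const_closed (Z := Z) hm hpr J hτ
    refine ⟨fun _ => lift pr τ, h2, ?_⟩
    rintro z ⟨z', -, v, hv, hn⟩
    exact absurd (h3 z' v hv) hn
  · rintro ⟨w, hw, hsmall⟩
    obtain ⟨τ, hτ, -⟩ := h1 w hw 0 (ES 0) (fun _ => 0)
      ⟨contMDiff_const, fun z v _ => by rw [mfderiv_const]; rfl⟩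
      (by
        intro z hz
        have h4 := hsmall z hz
        have h5 : ((fun _ => 0 : X → ES 0) ⁻¹' {(fun _ => 0 : X → ES 0) (pr z)}) =
            (fun _ => () : X → Unit) ⁻¹' {(fun _ => () : X → Unit) (pr z)} := by
          ext x
          simp
        rw [h5]
        exact h4)
    exact ⟨τ, hτ⟩

end Pool.Agent.Results.MP_9986fc_gt.MeanTaming
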