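import Mathlib
import Pool.Agent.N312.BU.Bridge

/-!
# Staged tests for tangent vectors

`X` is a closed manifold with a continuous almost complex structure `J`, and `C` is a nonempty
convex set of smooth closed two-forms on `X`, stable under adding exact forms (for example a
cohomology class, or all closed forms).

The set `C` contains a symplectic form taming `J` if and only if all nonzero tangent vectors can
be discarded. In the step `j` one may discard

* the vectors which are removed over countably many subsets `N j i` of `X`, relative to the
  vectors left;
* the vectors `v` for which `τ j k (v, J v)` tends to `+∞` as `k → ∞`;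
* the vectors `v` for which the lower limit of `σ j k (v, J v)` as `k → ∞` is positive, if this
  lower limit is nonnegative for all vectors left.

Here `τ j k` and `σ j k` are forms in the cone spanned by `C` and the exact forms, uniformly in
`k` bounded below on the pairs `(v, J v)` for the vectors `v` left. After all steps, the vectors
left are divided among the leaves, which are the fibres of the smooth functions with differential
zero on the vectors left. The pieces have to be void: with exact forms in place of forms in the
cone, all vectors of the piece can be discarded by steps as above and divisions into leaves.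

The second part is the case of one sequence tending to `+∞` outside a countable union of sets
which are small at their own points.
-/

set_option autoImplicit false

open Set Filter
open scoped Manifold ContDiff

namespace Pool.Agent.Results.MP_9986fc_gt.StagedTests

open Pool.Agent.Y501.SYP Pool.Agent.N312.BUP

theorem result (d : ℕ) (X : Type) [TopologicalSpace X] [ChartedSpace (ES d) X]
    [IsManifold 𝓘(ℝ, ES d) ∞ X] [CompactSpace X] [T2Space X]
    (J : End (ES d) X) (hJ : IsAlmostComplex J)
    (C : Set (Form (ES d) X 2)) (hC : IsTestClass C) :
    ((∃ w ∈ C, IsTamingSymplectic w J) ↔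
      ∃ T : Tests (ES d) X, T.Admissible J (ConeOf C) (NonzeroVectors (ES d) X) ∧
        ∀ z, Void J (T.Piece J (NonzeroVectors (ES d) X) z)) ∧
    ∀ (N : ℕ → Set X) (τ : ℕ → Form (ES d) X 2), (∀ i, ∀ z ∈ N i, SmallAll J (N i) z) →
      (∀ k, τ k ∈ ConeOf C) → LowerBounded J (fun x v => v ≠ 0 ∧ ∀ i, x ∉ N i) τ →
      (∀ (x : X) (v : TangentSpace 𝓘(ℝ, ES d) x), v ≠ 0 → (∀ i, x ∉ N i) →
        Tendsto (fun k => qd (τ k) J x v) atTop atTop) →
      ∃ w ∈ C, IsTamingSymplectic w J := by
  refine ⟨⟨fun ⟨_, hw, ht⟩ => tests_of_taming hw ht,
    fun ⟨_, hT, hV⟩ => taming_of_tests hJ hC hT hV⟩, fun N τ hN hτ hl hb => ?_⟩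
  obtain ⟨T, hT, hV⟩ := tests_of_blowUp hC hN hτ hl hb
  exact taming_of_tests hJ hC hT hV

end Pool.Agent.Results.MP_9986fc_gt.StagedTests
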