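import Mathlib
import Pool.Agent.N13.TL.Main
import Pool.Agent.Q130.SF.Hom

/-!
# The taming locus of a set of closed two-forms has no small components

`X` is a closed connected manifold with a continuous almost complex structure `J`, and `𝒞` is a
nonempty convex set of smooth closed two-forms which is stable under the addition of exact forms,
for instance the closed forms in a given cohomology class, or all closed forms.  A point is reached
by `𝒞` if near this point the forms of `𝒞` with arbitrarily small negative part are uniformly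
positive on the complex lines; no bound is assumed for these forms.  The locus is the set of the
points which are not reached.

The locus is closed, and it is empty if and only if `𝒞` contains a symplectic form taming `J`.
Otherwise its components are large: not small at all their points.  Even the components of the
intersections of the locus with the fibres of the controlled functions are large; a smooth function
`f` is controlled if for some `κ > 0` the forms `σ` of `𝒞` can be chosen with
`σ(v, Jv) ≥ κ df(v)^2` up to arbitrarily small errors.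

Proof: if such a component is small, there is an exact form which tames `J` near it.  It is cut off
by the square of a function which near the locus is a function of one controlled function, and the
errors are absorbed by forms of `𝒞`; so the points of the component are reached.

The library `Pool.Agent.Y501.SY` and the parts it uses are by helpers 501, 484, 363, 108, 925, 44
and others; existence of taming forms is by helper130.
-/

set_option autoImplicit false

open Set MeasureTheory Topology
open scoped Manifold ContDiff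

noncomputable section

namespace Pool.Agent.Results.MP_9986fc_gt.TamingLocus

open Pool.Agent.Y501.SYP

section defs

variable {V : Type} [NormedAddCommGroup V] [NormedSpace ℝ V]
  {X : Type} [TopologicalSpace X] [ChartedSpace V X]

/-- a convex set of smooth closed two-forms, stable under the addition of exact forms -/
structure ExactStable (𝒞 : Set (Form V X 2)) : Prop where
  smooth : ∀ σ ∈ 𝒞, IsSmooth σ
  closed : ∀ σ ∈ 𝒞, IsClosedForm σ
  convex : Convex ℝ 𝒞
  exact : ∀ σ ∈ 𝒞, ∀ (α : Form V X 1) (ρ : Form V X 2), IsSmooth α → IsSmooth ρ → IsD α ρ →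
    addF σ ρ ∈ 𝒞

/-- `x` is reached by `𝒞`: for some neighbourhood `N` of `x`, some `c > 0` and all `ε > 0` there is
`σ` in `𝒞` with `σ(v, Jv) ≥ - ε τ(v, Jv)` for all tangent vectors `v` of `X`, and with
`σ(v, Jv) ≥ c τ(v, Jv)` for all tangent vectors at the points of `N` -/
def Reached (𝒞 : Set (Form V X 2)) (J : End V X) (τ : Form V X 2) (x : X) : Prop :=
  ∃ N ∈ 𝓝 x, ∃ c : ℝ, 0 < c ∧ ∀ ε : ℝ, 0 < ε → ∃ σ ∈ 𝒞,
    (∀ (y : X) (v : TangentSpace 𝓘(ℝ, V) y), -ε * qd τ J y v ≤ qd σ J y v) ∧
    ∀ y ∈ N, ∀ v : TangentSpace 𝓘(ℝ, V) y, c * qd τ J y v ≤ qd σ J y v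

/-- the points which are not reached -/
def Locus (𝒞 : Set (Form V X 2)) (J : End V X) (τ : Form V X 2) : Set X :=
  {x | ¬ Reached 𝒞 J τ x}

/-- `f` is controlled by `𝒞`: for some `κ > 0` and all `ε > 0` there is `σ` in `𝒞` with
`σ(v, Jv) ≥ κ df(v)^2 - ε τ(v, Jv)` for all tangent vectors `v` -/
structure Controlled (𝒞 : Set (Form V X 2)) (J : End V X) (τ : Form V X 2) (f : X → ℝ) :
    Prop where
  smooth : SmoothFun (V := V) f
  bound : ∃ κ : ℝ, 0 < κ ∧ ∀ ε : ℝ, 0 < ε → ∃ σ ∈ 𝒞, ∀ (y : X) (v : TangentSpace 𝓘(ℝ, V) y),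
    κ * (dd f y v) ^ 2 - ε * qd τ J y v ≤ qd σ J y v

/-- the points of the locus at which every controlled function has the same value as at `z` -/
def Fibre (𝒞 : Set (Form V X 2)) (J : End V X) (τ : Form V X 2) (z : X) : Set X :=
  {y | y ∈ Locus 𝒞 J τ ∧ ∀ f, Controlled 𝒞 J τ f → f y = f z}

/-- the component of `z` in its fibre -/
def Comp (𝒞 : Set (Form V X 2)) (J : End V X) (τ : Form V X 2) (z : X) : Set X :=
  connectedComponentIn (Fibre 𝒞 J τ z) z

end defs

attribute [local instance] cs mf

/-- **The taming locus.**  `J` is tamed by some smooth two-form `τ`.  For every such `τ` the locus of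
`𝒞` is closed and does not depend on `τ`; it is empty if and only if `𝒞` contains a symplectic form
taming `J`; and no component of the fibre in the locus of a point of the locus is small at all its
points. -/
theorem result (d : ℕ) (X : Type) [TopologicalSpace X] [ChartedSpace (ES d) X]
    [IsManifold 𝓘(ℝ, ES d) ∞ X] [CompactSpace X] [T2Space X] [ConnectedSpace X]
    (J : End (ES d) X) (hJ : IsAlmostComplex J) (𝒞 : Set (Form (ES d) X 2))
    (hC : ExactStable 𝒞) (hne : 𝒞.Nonempty) :
    (∃ τ : Form (ES d) X 2, IsSmooth τ ∧ ∀ x, TamesAt τ J x) ∧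
    ∀ τ : Form (ES d) X 2, IsSmooth τ → (∀ x, TamesAt τ J x) →
      IsClosed (Locus 𝒞 J τ) ∧
      (∀ τ' : Form (ES d) X 2, IsSmooth τ' → (∀ x, TamesAt τ' J x) →
        Locus 𝒞 J τ' = Locus 𝒞 J τ) ∧
      ((∃ σ ∈ 𝒞, IsTamingSymplectic σ J) ↔ Locus 𝒞 J τ = ∅) ∧
      ∀ z ∈ Locus 𝒞 J τ, ∃ w ∈ Comp 𝒞 J τ z, ¬ SmallAll J (Comp 𝒞 J τ z) w := by
  have hJ' := ac_of J hJ
  have hC' : Pool.Agent.N13.TL.FC (d := d) (X := X) 𝒞 :=
    ⟨fun σ hσ => (smooth_iff σ).1 (hC.smooth σ hσ), fun σ hσ => (closed_iff σ).1 (hC.closed σ hσ),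
      hC.convex, fun σ hσ α ρ h1 h2 h3 => hC.exact σ hσ α ρ ((smooth_iff α).2 h1)
        ((smooth_iff ρ).2 h2) ((isD_iff α ρ).2 h3)⟩
  refine ⟨?_, fun τ hτ hτt => ⟨?_, fun τ' hτ' hτt' => ?_, ?_, fun z hz => ?_⟩⟩
  · obtain ⟨w, hw, hwt⟩ := Pool.Agent.Q130.SF.exists_tame (d := d) (X := X)
      Pool.Agent.Y484.SY.t_GEN Pool.Agent.Y455.SY.t_PERT Pool.Agent.Y363.SY.t_LOCAL hJ'
    exact ⟨w, (smooth_iff w).2 hw, hwt⟩
  · exact Pool.Agent.N13.TL.locus_closed (d := d) (X := X) (𝒞 := 𝒞) (J := J) (τ := τ)
  · exact Pool.Agent.N13.TL.locus_eq (d := d) (X := X) (𝒞 := 𝒞) (J := J) hJ'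
      ((smooth_iff τ).1 hτ) hτt ((smooth_iff τ').1 hτ') hτt'
  · have h := Pool.Agent.N13.TL.empty_iff (d := d) (X := X) (𝒞 := 𝒞) (J := J) hJ'
      ((smooth_iff τ).1 hτ) hτt hC' hne
    constructor
    · rintro ⟨σ, hσ, h1⟩
      exact h.1 ⟨σ, hσ, h1.tames⟩
    · intro h1
      obtain ⟨σ, hσ, h2⟩ := h.2 h1
      exact ⟨σ, hσ, symp_of (hC.smooth σ hσ) (hC.closed σ hσ) h2⟩
  · by_contra hcon
    push Not at hcon
    have hF : Fibre 𝒞 J τ z = Pool.Agent.N13.TL.Fib (d := d) (X := X) 𝒞 J τ z := by
      ext y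
      refine and_congr Iff.rfl ⟨fun h f hf => h f ⟨hf.smooth, hf.ctrl⟩,
        fun h f hf => h f ⟨hf.smooth, hf.bound⟩⟩
    refine Pool.Agent.N13.TL.reached_of_small (d := d) (X := X) (𝒞 := 𝒞) (J := J) hJ'
      ((smooth_iff τ).1 hτ) hτt hC' hne (z := z) hz fun w hw => ?_
    have h1 := hcon w (by rw [Comp, hF]; exact hw)
    rw [Comp, hF] at h1
    exact smallAll_of hJ h1

end Pool.Agent.Results.MP_9986fc_gt.TamingLocus
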